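import Pool.Agent.H59.L.T374d34.N98.T2.Seq
import Pool.Agent.H59.L.T374d34.N98.RV.Hyp

/-!
Two-dimensional regular local rings: prime ideals and unique factorization; the valuation ring of
a curve.
-/

set_option autoImplicit false
set_option linter.unusedVariables false
set_option linter.unusedSectionVars false

universe u

namespace Pool.Agent.N98.T2

open Pool.Agent.W418.LU2 Polynomial

variable {E : Type u} [Field E] {V : ValuationSubring E} {P P' : Subring E} {s z f x y : E}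

/-- Nakayama for a domain: `𝔭 ≤ (g) + x 𝔭`. -/
lemma nak {R : Type*} [CommRing R] [IsLocalRing R] {𝔭 : Ideal R} (hfg : 𝔭.FG) {x g : R}
    (hx : x ∈ IsLocalRing.maximalIdeal R)
    (h : ∀ a ∈ 𝔭, ∃ b, ∃ c ∈ 𝔭, a = b * g + c * x) : 𝔭 ≤ Ideal.span {g} := by
  refine Submodule.le_of_le_smul_of_le_jacobson_bot (I := Ideal.span {x}) hfg ?_ ?_
  · rw [IsLocalRing.jacobson_eq_maximalIdeal ⊥ bot_ne_top, Ideal.span_singleton_le_iff_mem]
    exact hx
  · intro a ha
    obtain ⟨b, c, hc, rfl⟩ := h a ha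
    refine Submodule.add_mem_sup (Ideal.mem_span_singleton'.2 ⟨b, rfl⟩) ?_
    rw [smul_eq_mul, mul_comm c x]
    exact Ideal.mul_mem_mul (Ideal.mem_span_singleton_self x) hc

/-- The prime ideals of a two-dimensional regular local ring. -/
theorem Par.prime_ideal (h : Par V P x y) (𝔭 : Ideal P) [h𝔭 : 𝔭.IsPrime] :
    (∃ g, 𝔭 = Ideal.span {g}) ∨ ((⟨x, h.xP⟩ : P) ∈ 𝔭 ∧ (⟨y, h.yP⟩ : P) ∈ 𝔭) := by
  classical
  have hN := h.noeth
  have hloc := h.isLocalRing
  let X : P := ⟨x, h.xP⟩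
  let Y : P := ⟨y, h.yP⟩
  have hXm : X ∈ IsLocalRing.maximalIdeal P := by
    rw [IsLocalRing.mem_maximalIdeal]
    exact h.prime_left.not_isUnit
  have hrep : ∀ a : P, (∃ c : P, a = c * X) ∨
      ∃ (n : ℕ) (u c : P), IsUnit u ∧ a = u * Y ^ n + c * X := by
    intro a
    by_cases ha : ∀ c ∈ P, (a : E) ≠ c * x
    · right
      obtain ⟨n, u, hu, hu1, c, hc, e⟩ := h.rep a.2 ha
      exact ⟨n, ⟨u, hu⟩, ⟨c, hc⟩, (h.isUnit_iff _).2 hu1, Subtype.ext e⟩
    · left
      push Not at ha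
      obtain ⟨c, hc, e⟩ := ha
      exact ⟨⟨c, hc⟩, Subtype.ext e⟩
  by_cases hX : X ∈ 𝔭
  · by_cases hle : 𝔭 ≤ Ideal.span {X}
    · left
      exact ⟨X, le_antisymm hle ((Ideal.span_singleton_le_iff_mem _).2 hX)⟩
    · right
      refine ⟨hX, ?_⟩
      obtain ⟨a, ha, ha'⟩ := SetLike.not_le_iff_exists.1 hle
      rcases hrep a with ⟨c, rfl⟩ | ⟨n, u, c, hu, rfl⟩
      · exact absurd (Ideal.mem_span_singleton'.2 ⟨c, rfl⟩) ha'
      · have h1 : u * Y ^ n ∈ 𝔭 := by
          have := 𝔭.sub_mem ha (𝔭.mul_mem_left c hX)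
          rwa [add_sub_cancel_right] at this
        rcases h𝔭.mem_or_mem h1 with h2 | h2
        · exact absurd (𝔭.eq_top_of_isUnit_mem h2 hu) h𝔭.ne_top
        · exact h𝔭.mem_of_pow_mem n h2
  · left
    by_cases hex : ∃ n : ℕ, ∃ a ∈ 𝔭, ∃ u c : P, IsUnit u ∧ a = u * Y ^ n + c * X
    · obtain ⟨g, hg, u, c, hu, hge⟩ := Nat.find_spec hex
      have hmin : ∀ m < Nat.find hex, ¬ ∃ a ∈ 𝔭, ∃ u c : P, IsUnit u ∧ a = u * Y ^ m + c * X :=
        fun m hm => Nat.find_min hex hm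
      refine ⟨g, le_antisymm ?_ ((Ideal.span_singleton_le_iff_mem _).2 hg)⟩
      refine nak (IsNoetherian.noetherian 𝔭) hXm fun a ha => ?_
      rcases hrep a with ⟨c', rfl⟩ | ⟨m, v, d, hv, hae⟩
      · exact ⟨0, c', (h𝔭.mem_or_mem ha).resolve_right hX, by ring⟩
      · have hm : Nat.find hex ≤ m := by
          by_contra hlt
          exact hmin m (not_le.1 hlt) ⟨a, ha, v, d, hv, hae⟩
        obtain ⟨j, hj⟩ := Nat.exists_eq_add_of_le hm
        obtain ⟨u', hu'⟩ := hu.exists_left_inv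
        have e1 : a - v * u' * Y ^ j * g = (d - v * u' * Y ^ j * c) * X := by
          rw [hae, hge, hj, pow_add]
          linear_combination (-(v * Y ^ Nat.find hex * Y ^ j)) * hu'
        have h1 : (d - v * u' * Y ^ j * c) * X ∈ 𝔭 := by
          rw [← e1]
          exact 𝔭.sub_mem ha (𝔭.mul_mem_left _ hg)
        exact ⟨v * u' * Y ^ j, d - v * u' * Y ^ j * c, (h𝔭.mem_or_mem h1).resolve_right hX, by
          rw [← e1]; ring⟩
    · refine ⟨0, le_antisymm ?_ (by simp)⟩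
      refine nak (IsNoetherian.noetherian 𝔭) hXm fun a ha => ?_
      rcases hrep a with ⟨c', rfl⟩ | ⟨m, v, d, hv, hae⟩
      · exact ⟨0, c', (h𝔭.mem_or_mem ha).resolve_right hX, by ring⟩
      · exact absurd ⟨m, a, ha, v, d, hv, hae⟩ hex

/-- If the two parameters lie in an ideal, then the maximal ideal does. -/
lemma Par.mem_of_both (h : Par V P x y) {𝔭 : Ideal P} (hx : (⟨x, h.xP⟩ : P) ∈ 𝔭)
    (hy : (⟨y, h.yP⟩ : P) ∈ 𝔭) {a : P} (ha : V.valuation (a : E) < 1) : a ∈ 𝔭 := by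
  obtain ⟨b, hb, c, hc, e⟩ := h.gen a a.2 ha
  have e' : a = ⟨b, hb⟩ * ⟨x, h.xP⟩ + ⟨c, hc⟩ * ⟨y, h.yP⟩ := Subtype.ext e
  rw [e']
  exact 𝔭.add_mem (𝔭.mul_mem_left _ hx) (𝔭.mul_mem_left _ hy)

/-- Two-dimensional regular local rings are factorial. -/
theorem Par.ufm (h : Par V P x y) : UniqueFactorizationMonoid P := by
  have hN := h.noeth
  rw [UniqueFactorizationMonoid.iff_exists_prime_mem_of_isPrime]
  intro I hI hIp
  rcases h.prime_ideal I with ⟨g, rfl⟩ | ⟨h1, -⟩
  · refine ⟨g, Ideal.mem_span_singleton_self g, (Ideal.span_singleton_prime ?_).1 hIp⟩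
    rintro rfl
    exact hI (by simp)
  · exact ⟨_, h1, h.prime_left⟩

/-- Elements whose prime divisors are all associated to a given one. -/
lemma eq_unit_mul_pow {R : Type*} [CommRing R] [IsDomain R] [UniqueFactorizationMonoid R]
    {s a : R} (hs : Prime s) (ha : a ≠ 0) (h : ∀ q, Prime q → q ∣ a → q ∣ s) :
    ∃ (u : R) (n : ℕ), IsUnit u ∧ a = u * s ^ n := by
  obtain ⟨n, b, hb, rfl⟩ := WfDvdMonoid.max_power_factor ha hs.irreducible
  refine ⟨b, n, ?_, mul_comm _ _⟩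
  by_contra hu
  have hb0 : b ≠ 0 := right_ne_zero_of_mul ha
  obtain ⟨q, hq, hqb⟩ := WfDvdMonoid.exists_irreducible_factor hu hb0
  have hqp : Prime q := UniqueFactorizationMonoid.irreducible_iff_prime.1 hq
  have h1 := h q hqp (hqb.mul_left _)
  have h2 : Associated q s := hq.associated_of_dvd hs.irreducible h1
  exact hb (h2.symm.dvd.trans hqb)

/-- The divisors of monomials are monomials. -/
lemma exists_of_dvd {R : Type*} [CommRing R] [IsDomain R] [UniqueFactorizationMonoid R]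
    {s z a b : R} (hs : Prime s) (hz : Prime z) {n m : ℕ} {u : R} (hu : IsUnit u)
    (hab : a * b = u * s ^ n * z ^ m) : ∃ (v : R) (i j : ℕ), IsUnit v ∧ a = v * s ^ i * z ^ j := by
  have h0 : a * b ≠ 0 := by
    rw [hab]
    exact mul_ne_zero (mul_ne_zero hu.ne_zero (pow_ne_zero _ hs.ne_zero))
      (pow_ne_zero _ hz.ne_zero)
  have ha : a ≠ 0 := left_ne_zero_of_mul h0
  obtain ⟨i, c, hc, rfl⟩ := WfDvdMonoid.max_power_factor ha hs.irreducible
  have hc0 : c ≠ 0 := right_ne_zero_of_mul ha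
  obtain ⟨v, j, hv, hcv⟩ := eq_unit_mul_pow hz hc0 (fun q hq hqc => by
    have h1 : q ∣ u * s ^ n * z ^ m := by
      rw [← hab]
      exact (hqc.mul_left _).mul_right _
    rcases hq.dvd_or_dvd h1 with h2 | h2
    · rcases hq.dvd_or_dvd h2 with h3 | h3
      · exact absurd (isUnit_of_dvd_unit h3 hu) hq.not_isUnit
      · have h4 := hq.dvd_of_dvd_pow h3
        have h5 : Associated q s := hq.irreducible.associated_of_dvd hs.irreducible h4
        exact absurd (h5.symm.dvd.trans hqc) hc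
    · exact hq.dvd_of_dvd_pow h2)
  exact ⟨v, i, j, hv, by rw [hcv]; ring⟩

section q

variable {L : Type u} [Field L] {Q : ValuationSubring E} (φ : Q →+* L)

open Classical in
/-- The residue map, extended by zero. -/
noncomputable def pf (e : E) : L := if h : e ∈ Q then φ ⟨e, h⟩ else 0

lemma pf_of {e : E} (h : e ∈ Q) : pf φ e = φ ⟨e, h⟩ := dif_pos h

lemma pf_add {a b : E} (ha : a ∈ Q) (hb : b ∈ Q) : pf φ (a + b) = pf φ a + pf φ b := by
  rw [pf_of φ ha, pf_of φ hb, pf_of φ (Q.add_mem _ _ ha hb), ← map_add]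
  rfl

lemma pf_mul {a b : E} (ha : a ∈ Q) (hb : b ∈ Q) : pf φ (a * b) = pf φ a * pf φ b := by
  rw [pf_of φ ha, pf_of φ hb, pf_of φ (Q.mul_mem _ _ ha hb), ← map_mul]
  rfl

lemma pf_neg {a : E} (ha : a ∈ Q) : pf φ (-a) = -pf φ a := by
  rw [pf_of φ ha, pf_of φ (Q.neg_mem _ ha), ← map_neg]
  rfl

lemma pf_sub {a b : E} (ha : a ∈ Q) (hb : b ∈ Q) : pf φ (a - b) = pf φ a - pf φ b := by
  rw [sub_eq_add_neg, pf_add φ ha (Q.neg_mem _ hb), pf_neg φ hb, sub_eq_add_neg]

lemma pf_one : pf φ 1 = 1 := by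
  rw [pf_of φ Q.one_mem, ← map_one φ]
  rfl

lemma pf_zero : pf φ 0 = 0 := by
  rw [pf_of φ Q.zero_mem, ← map_zero φ]
  rfl

lemma pf_inv {a : E} (ha : a ∈ Q) (ha0 : a ≠ 0) (hi : a⁻¹ ∈ Q) : pf φ a⁻¹ = (pf φ a)⁻¹ := by
  have h1 : pf φ a * pf φ a⁻¹ = 1 := by
    rw [← pf_mul φ ha hi, mul_inv_cancel₀ ha0, pf_one]
  exact eq_inv_of_mul_eq_one_right h1

/-- The image of a subring of `Q`. -/
noncomputable def im (P : Subring E) (hP : ∀ a ∈ P, a ∈ Q) : Subring L where
  carrier := {c | ∃ a ∈ P, pf φ a = c}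
  mul_mem' := by
    rintro _ _ ⟨a, ha, rfl⟩ ⟨b, hb, rfl⟩
    exact ⟨a * b, P.mul_mem ha hb, pf_mul φ (hP a ha) (hP b hb)⟩
  one_mem' := ⟨1, P.one_mem, pf_one φ⟩
  add_mem' := by
    rintro _ _ ⟨a, ha, rfl⟩ ⟨b, hb, rfl⟩
    exact ⟨a + b, P.add_mem ha hb, pf_add φ (hP a ha) (hP b hb)⟩
  zero_mem' := ⟨0, P.zero_mem, pf_zero φ⟩
  neg_mem' := by
    rintro _ ⟨a, ha, rfl⟩
    exact ⟨-a, P.neg_mem ha, pf_neg φ (hP a ha)⟩

end q

/-- The valuation ring of a prime element. -/
theorem exists_curve_val {k : Type u} [CommRing k] [IsDomain k] [IsNoetherianRing k]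
    [Algebra k E] [IsFractionRing k E] (𝔭 : Ideal k) [hpr : 𝔭.IsPrime] (g : k) (hg : Prime g)
    (h𝔭 : 𝔭 = Ideal.span {g}) :
    ∃ (Q : ValuationSubring E) (φ : Q →+* FractionRing (k ⧸ 𝔭)),
      (∀ a : Q, φ a = 0 ↔ Q.valuation (a : E) < 1) ∧
      (∀ a : k, algebraMap k E a ∈ Q ∧
        pf φ (algebraMap k E a) = algebraMap (k ⧸ 𝔭) _ (Ideal.Quotient.mk _ a)) ∧
      (∀ e ∈ Q, ∃ a b : k, Q.valuation (algebraMap k E b) = 1 ∧
        e = algebraMap k E a * (algebraMap k E b)⁻¹) ∧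
      ∀ a : k, Q.valuation (algebraMap k E a) < 1 → g ∣ a := by
  classical
  let L := FractionRing (k ⧸ 𝔭)
  let evk : k →ₐ[k] L := Algebra.ofId k L
  have hev : ∀ a : k, evk a = algebraMap (k ⧸ 𝔭) L (Ideal.Quotient.mk _ a) := by
    intro a
    change algebraMap k L a = _
    rw [IsScalarTower.algebraMap_apply k (k ⧸ 𝔭) L]
    rfl
  have hev0 : ∀ a : k, evk a = 0 ↔ g ∣ a := by
    intro a
    rw [hev, ← Ideal.mem_span_singleton, ← h𝔭, ← Ideal.Quotient.eq_zero_iff_mem]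
    constructor
    · intro h
      exact IsFractionRing.injective (k ⧸ 𝔭) L (h.trans (map_zero _).symm)
    · intro h
      rw [h, map_zero]
  obtain ⟨Q, π, hQ0, hπ⟩ := RV.exists_Q (K' := E) evk
  have hgQ : ∀ a : k, algebraMap k E a ∈ Q := fun a => Q.algebraMap_mem a
  have hinj : Function.Injective (algebraMap k E) := IsFractionRing.injective k E
  have hne : ∀ s : k, s ≠ 0 → algebraMap k E s ≠ 0 := fun s hs h =>
    hs (hinj (h.trans (map_zero _).symm))
  have hfrac : ∀ r s : k, ¬ g ∣ s → algebraMap k E r * (algebraMap k E s)⁻¹ ∈ Q := fun r s hs =>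
    (hQ0 _).2 ⟨r, s, fun h => hs ((hev0 s).1 h), rfl⟩
  have htot : ∀ e : E, e ∈ Q.toSubring ∨ e⁻¹ ∈ Q.toSubring := by
    have key : ∀ (a b : k), a ≠ 0 → b ≠ 0 →
        algebraMap k E a * (algebraMap k E b)⁻¹ ∈ Q ∨
        algebraMap k E b * (algebraMap k E a)⁻¹ ∈ Q := by
      intro a b ha hb
      obtain ⟨i, a', ha', rfl⟩ := WfDvdMonoid.max_power_factor ha hg.irreducible
      obtain ⟨j, b', hb', rfl⟩ := WfDvdMonoid.max_power_factor hb hg.irreducible
      have hf0 := hne g hg.ne_zero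
      have ha2 := hne a' (right_ne_zero_of_mul ha)
      have hb2 := hne b' (right_ne_zero_of_mul hb)
      rcases le_total j i with h | h
      · left
        have e : algebraMap k E (g ^ i * a') * (algebraMap k E (g ^ j * b'))⁻¹ =
            algebraMap k E (g ^ (i - j) * a') * (algebraMap k E b')⁻¹ := by
          rw [map_mul, map_mul, map_mul, map_pow, map_pow, map_pow, mul_inv]
          have : algebraMap k E g ^ i = algebraMap k E g ^ (i - j) * algebraMap k E g ^ j := by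
            rw [← pow_add, Nat.sub_add_cancel h]
          rw [this]
          field_simp
        rw [e]
        exact hfrac _ _ hb'
      · right
        have e : algebraMap k E (g ^ j * b') * (algebraMap k E (g ^ i * a'))⁻¹ =
            algebraMap k E (g ^ (j - i) * b') * (algebraMap k E a')⁻¹ := by
          rw [map_mul, map_mul, map_mul, map_pow, map_pow, map_pow, mul_inv]
          have : algebraMap k E g ^ j = algebraMap k E g ^ (j - i) * algebraMap k E g ^ i := by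
            rw [← pow_add, Nat.sub_add_cancel h]
          rw [this]
          field_simp
        rw [e]
        exact hfrac _ _ ha'
    intro y
    by_cases hy : y = 0
    · left
      rw [hy]
      exact Q.zero_mem
    obtain ⟨a, b, hb, hab⟩ := IsFractionRing.div_surjective k y
    have hb0 := nonZeroDivisors.ne_zero hb
    have ha0 : a ≠ 0 := by
      rintro rfl
      apply hy
      rw [← hab, map_zero, zero_div]
    rcases key a b ha0 hb0 with h | h
    · left
      rw [← hab, div_eq_mul_inv]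
      exact h
    · right
      rw [← hab, inv_div, div_eq_mul_inv]
      exact h
  let Q' : ValuationSubring E := { Q.toSubring with mem_or_inv_mem' := htot }
  let φ : Q' →+* L := (π : Q →+* L)
  have hφ : ∀ (a : E) (h : a ∈ Q'), φ ⟨a, h⟩ = π ⟨a, h⟩ := fun a h => rfl
  have hπk : ∀ a : k, ∀ h : algebraMap k E a ∈ Q, π ⟨_, h⟩ = evk a := fun a h => hπ a h
  have hval : ∀ (e : Q'), φ e = 0 ↔ Q'.valuation (e : E) < 1 := by
    intro e
    constructor
    · intro he
      refine (lt_or_one (V := Q') e.2).resolve_right fun h1 => ?_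
      have h2 : (e : E)⁻¹ ∈ Q' := inv_mem_of_one h1
      have h3 : e * ⟨_, h2⟩ = 1 := Subtype.ext (mul_inv_cancel₀ (ne_zero_of_one h1))
      have h4 := congrArg φ h3
      rw [map_mul, he, zero_mul, map_one] at h4
      exact zero_ne_one h4
    · intro he
      by_contra h1
      obtain ⟨a, s, hs, e1⟩ := (hQ0 _).1 e.2
      have hs0 : s ≠ 0 := by
        rintro rfl
        exact hs (map_zero _)
      have ha : evk a ≠ 0 := by
        intro ha
        apply h1
        have h2 : e * ⟨algebraMap k E s, hgQ s⟩ = ⟨algebraMap k E a, hgQ a⟩ := Subtype.ext (by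
          change (e : E) * algebraMap k E s = algebraMap k E a
          rw [e1, mul_assoc, inv_mul_cancel₀ (hne s hs0), mul_one])
        have h3 := congrArg φ h2
        rw [map_mul, hφ _ (hgQ s), hφ _ (hgQ a), hπk, hπk, ha] at h3
        exact (mul_eq_zero.1 h3).resolve_right hs
      have h2 : (e : E)⁻¹ ∈ Q' := by
        refine (hQ0 _).2 ⟨s, a, ha, ?_⟩
        rw [e1, mul_inv, inv_inv, mul_comm]
      have h3 : (e : E) ≠ 0 := by
        intro h0
        apply h1
        have : e = 0 := Subtype.ext h0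
        rw [this, map_zero]
      rw [one_of_inv e.2 h3 h2] at he
      exact lt_irrefl _ he
  refine ⟨Q', φ, hval, fun a => ⟨hgQ a, ?_⟩, ?_, ?_⟩
  · rw [pf_of φ (hgQ a), hφ _ (hgQ a), hπk, hev]
  · intro e he
    obtain ⟨a, s, hs, e1⟩ := (hQ0 _).1 he
    refine ⟨a, s, ?_, e1⟩
    refine (lt_or_one (V := Q') (hgQ s)).resolve_left fun h1 => hs ?_
    have h2 := (hval ⟨_, hgQ s⟩).2 h1
    rw [hφ _ (hgQ s), hπk] at h2
    exact h2
  · intro a ha
    have h2 := (hval ⟨_, hgQ a⟩).2 ha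
    rw [hφ _ (hgQ a), hπk] at h2
    exact (hev0 a).1 h2

end Pool.Agent.N98.T2
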