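import Pool.Agent.H59.L.T374d34.N98.T2.Main

/-!
Two-dimensional regular local rings.
-/

set_option autoImplicit false
set_option linter.unusedVariables false
set_option linter.unusedSectionVars false

universe u

namespace Pool.Agent.N98.T2

open Pool.Agent.W418.LU2 Polynomial IsLocalRing

variable {k E : Type u} [CommRing k] [IsDomain k] [IsRegularLocalRing k] [Field E] [Algebra k E]
  [IsFractionRing k E]

lemma not_rad (hdim : ringKrullDim k = 2) {Z : k} (hZ : Z ∈ maximalIdeal k)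
    (h : ∀ 𝔮 : Ideal k, 𝔮.IsPrime → Z ∈ 𝔮 → maximalIdeal k ≤ 𝔮) : False := by
  have h1 : maximalIdeal k ∈ (Ideal.span {Z}).minimalPrimes := by
    refine ⟨⟨inferInstance, (Ideal.span_singleton_le_iff_mem _).2 hZ⟩, ?_⟩
    rintro 𝔮 ⟨h𝔮, hZ𝔮⟩ -
    exact h 𝔮 h𝔮 ((Ideal.span_singleton_le_iff_mem _).1 hZ𝔮)
  have h2 := Ideal.height_le_one_of_isPrincipal_of_mem_minimalPrimes _ _ h1
  have h3 := IsLocalRing.maximalIdeal_height_eq_ringKrullDim (R := k)
  rw [hdim] at h3
  have h4 : ((maximalIdeal k).height : WithBot ℕ∞) ≤ 1 := by exact_mod_cast h2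
  rw [h3] at h4
  exact absurd h4 (by decide)

/-- Two-dimensional regular local rings, dominated by a valuation ring. -/
theorem par_of_regular (hdim : ringKrullDim k = 2) (V : ValuationSubring E)
    (hV : ∀ a : k, algebraMap k E a ∈ V)
    (hV' : ∀ a : k, a ∈ nonunits k ↔ V.valuation (algebraMap k E a) < 1) :
    ∃ x y : E, Par V (algebraMap k E).range x y := by
  have hinj : Function.Injective (algebraMap k E) := IsFractionRing.injective k E
  have h1 : (maximalIdeal k).spanFinrank = 2 := by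
    have := IsRegularLocalRing.spanFinrank_maximalIdeal (R := k)
    rw [hdim] at this
    exact_mod_cast this
  have hfg : (maximalIdeal k).FG := IsNoetherian.noetherian _
  obtain ⟨X, Y, hXY, hS⟩ := Set.ncard_eq_two.1 ((Submodule.FG.generators_ncard hfg).trans h1)
  have hm : maximalIdeal k = Ideal.span {X, Y} := by
    have := Submodule.span_generators (maximalIdeal k)
    rw [hS] at this
    exact this.symm
  have hX : X ∈ maximalIdeal k := by
    rw [hm]
    exact Ideal.subset_span (Or.inl rfl)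
  have hY : Y ∈ maximalIdeal k := by
    rw [hm]
    exact Ideal.subset_span (Or.inr rfl)
  refine ⟨algebraMap k E X, algebraMap k E Y, ?_, ?_, ?_, ⟨X, rfl⟩, ⟨Y, rfl⟩,
    (hV' X).1 hX, (hV' Y).1 hY, ?_, ?_, ?_⟩
  · rintro _ ⟨a, rfl⟩
    exact hV a
  · rintro _ ⟨a, rfl⟩ ha
    have h2 : IsUnit a := by
      by_contra h3
      have := (hV' a).1 h3
      rw [ha] at this
      exact lt_irrefl _ this
    obtain ⟨b, hb⟩ := h2.exists_right_inv
    refine ⟨b, ?_⟩
    rw [eq_comm]
    apply inv_eq_of_mul_eq_one_right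
    rw [← map_mul, hb, map_one]
  · exact isNoetherianRing_range (algebraMap k E)
  · intro h0
    have h2 : X = 0 := hinj (h0.trans (map_zero _).symm)
    refine not_rad hdim hY fun 𝔮 h𝔮 hY𝔮 => ?_
    rw [hm, Ideal.span_le]
    rintro a (rfl | ha)
    · rw [h2]
      exact 𝔮.zero_mem
    · rw [Set.mem_singleton_iff.1 ha]
      exact hY𝔮
  · rintro _ ⟨a, rfl⟩ ha
    have h2 : a ∈ maximalIdeal k := (hV' a).2 ha
    rw [hm] at h2
    obtain ⟨b, c, rfl⟩ := Ideal.mem_span_pair.1 h2
    exact ⟨_, ⟨b, rfl⟩, _, ⟨c, rfl⟩, by rw [map_add, map_mul, map_mul]⟩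
  · rintro n _ ⟨c, rfl⟩ h2
    rw [← map_pow, ← map_mul] at h2
    have h3 := hinj h2
    refine not_rad hdim hX fun 𝔮 h𝔮 hX𝔮 => ?_
    have h4 : Y ∈ 𝔮 := by
      apply h𝔮.mem_of_pow_mem n
      rw [h3]
      exact 𝔮.mul_mem_left _ hX𝔮
    rw [hm, Ideal.span_le]
    rintro a (rfl | ha)
    · exact hX𝔮
    · rw [Set.mem_singleton_iff.1 ha]
      exact h4

end Pool.Agent.N98.T2
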