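import Pool.Agent.H59.L.T374d34.N98.T2.Blow

/-!
Sequences of quadratic transforms: monomials.
-/

set_option autoImplicit false
set_option linter.unusedVariables false
set_option linter.unusedSectionVars false

universe u

namespace Pool.Agent.N98.T2

open Pool.Agent.W418.LU2 Polynomial

variable {E : Type u} [Field E]

lemma lo_lo' {W S : Subring E} (hS : S ≤ W) : lo W (lo W S) = lo W S := RV.lo_lo hS

/-- `f` is a unit times a monomial. -/
def Mo (V : ValuationSubring E) (P : Subring E) (s z f : E) : Prop :=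
  ∃ u ∈ P, V.valuation u = 1 ∧ ∃ a b : ℤ, f = u * s ^ a * z ^ b

/-- `P'` is the quadratic transform of `P`. -/
def Nx (V : ValuationSubring E) (P : Subring E) (s : E) (P' : Subring E) : Prop :=
  ∃ y, Par V P s y ∧ y / s ∈ V ∧ P' = lo V.toSubring (bl P (y / s))

variable {V : ValuationSubring E} {P P' : Subring E} {s z f g x y : E}

section mo

lemma zpow_unit (hinv : ∀ a ∈ P, V.valuation a = 1 → a⁻¹ ∈ P) {u : E} (hu : u ∈ P)
    (hu1 : V.valuation u = 1) (n : ℤ) : u ^ n ∈ P ∧ V.valuation (u ^ n) = 1 := by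
  constructor
  · obtain ⟨m, rfl | rfl⟩ := Int.eq_nat_or_neg n
    · rw [zpow_natCast]
      exact P.pow_mem hu m
    · rw [zpow_neg, zpow_natCast, ← inv_pow]
      exact P.pow_mem (hinv u hu hu1) m
  · rw [map_zpow₀, hu1, one_zpow]

variable (h : Par V P s z)

include h

lemma Mo.unit {u : E} (hu : u ∈ P) (hu1 : V.valuation u = 1) : Mo V P s z u :=
  ⟨u, hu, hu1, 0, 0, by simp⟩

lemma Mo.left : Mo V P s z s := ⟨1, P.one_mem, map_one _, 1, 0, by simp⟩

lemma Mo.right : Mo V P s z z := ⟨1, P.one_mem, map_one _, 0, 1, by simp⟩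

lemma Mo.mul (hf : Mo V P s z f) (hg : Mo V P s z g) : Mo V P s z (f * g) := by
  obtain ⟨u, hu, hu1, a, b, rfl⟩ := hf
  obtain ⟨v, hv, hv1, c, d, rfl⟩ := hg
  refine ⟨u * v, P.mul_mem hu hv, by rw [map_mul, hu1, hv1, one_mul], a + c, b + d, ?_⟩
  rw [zpow_add₀ h.x0, zpow_add₀ h.y0]
  ring

lemma Mo.zpow (hf : Mo V P s z f) (n : ℤ) : Mo V P s z (f ^ n) := by
  obtain ⟨u, hu, hu1, a, b, rfl⟩ := hf
  obtain ⟨h1, h2⟩ := zpow_unit h.inv hu hu1 n
  exact ⟨u ^ n, h1, h2, a * n, b * n, by rw [mul_zpow, mul_zpow, zpow_mul, zpow_mul]⟩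

lemma Mo.trans {s' z' : E} (h' : Par V P' s' z') (hle : P ≤ P') (hf : Mo V P s z f)
    (hs : Mo V P' s' z' s) (hz : Mo V P' s' z' z) : Mo V P' s' z' f := by
  obtain ⟨u, hu, hu1, a, b, rfl⟩ := hf
  exact Mo.mul h' (Mo.mul h' (Mo.unit h' (hle hu) hu1) (Mo.zpow h' hs a)) (Mo.zpow h' hz b)

lemma Mo.ne (hf : Mo V P s z f) : f ≠ 0 := by
  obtain ⟨u, hu, hu1, a, b, rfl⟩ := hf
  exact mul_ne_zero (mul_ne_zero (ne_zero_of_one hu1) (zpow_ne_zero _ h.x0))
    (zpow_ne_zero _ h.y0)

end mo

section nx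

/-- Uniqueness of the quadratic transform. -/
lemma Par.uniq {x' y' : E} (h : Par V P x y) (hw : y / x ∈ V) (h' : Par V P x' y')
    (hw' : y' / x' ∈ V) : lo V.toSubring (bl P (y' / x')) ≤ lo V.toSubring (bl P (y / x)) ∧
      ∃ u ∈ lo V.toSubring (bl P (y / x)), V.valuation u = 1 ∧ x' = u * x := by
  have key : ∀ {x y x' y' : E}, Par V P x y → y / x ∈ V → Par V P x' y' →
      x' / x ∈ bl P (y / x) := by
    intro x y x' y' h hw h'
    obtain ⟨b, hb, hb'⟩ := h.div h'.xP h'.xV
    rw [hb', mul_div_cancel_right₀ _ h.x0]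
    exact hb
  have h1 := key h hw h'
  have h2 := key h' hw' h
  have h3 : V.valuation (x' / x) = 1 := by
    refine one_of_inv (h.bl_le hw h1) (div_ne_zero h'.x0 h.x0) ?_
    rw [inv_div]
    exact h'.bl_le hw' h2
  have h4 : x / x' ∈ lo V.toSubring (bl P (y / x)) := by
    have := inv_mem_lo (h.bl_le hw) (le_lo _ _ h1) (ne_zero_of_one h3) (inv_mem_of_one h3)
    rwa [inv_div] at this
  have h5 : y' / x' ∈ lo V.toSubring (bl P (y / x)) := by
    obtain ⟨b, hb, hb'⟩ := h.div h'.yP h'.yV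
    have e : y' / x' = b * (x / x') := by
      rw [hb']; ring
    rw [e]
    exact Subring.mul_mem _ (le_lo _ _ hb) h4
  refine ⟨?_, x' / x, le_lo _ _ h1, h3, by rw [div_mul_cancel₀ _ h.x0]⟩
  have h6 : bl P (y' / x') ≤ lo V.toSubring (bl P (y / x)) :=
    T2.bl_le ((le_bl _ _).trans (le_lo _ _)) h5
  exact (lo_mono h6).trans (lo_lo' (h.bl_le hw)).le

lemma Nx.eq (hN : Nx V P s P') (h : Par V P x y) (hw : y / x ∈ V) :
    P' = lo V.toSubring (bl P (y / x)) ∧ ∃ u ∈ P', V.valuation u = 1 ∧ s = u * x := by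
  obtain ⟨y', h', hw', rfl⟩ := hN
  obtain ⟨h1, h2⟩ := h.uniq hw h' hw'
  obtain ⟨h3, -⟩ := h'.uniq hw' h hw
  have e := le_antisymm h1 h3
  exact ⟨e, by rw [e]; exact h2⟩

lemma Nx.le (hN : Nx V P s P') : P ≤ P' := by
  obtain ⟨y', h', hw', rfl⟩ := hN
  exact (le_bl _ _).trans (le_lo _ _)

lemma div_total (x y : E) (hx : x ≠ 0) : y / x ∈ V ∨ V.valuation (x / y) < 1 := by
  by_cases hy : y = 0
  · left
    rw [hy, zero_div]
    exact V.zero_mem
  · rcases V.mem_or_inv_mem (y / x) with h | h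
    · exact Or.inl h
    · rw [inv_div] at h
      rcases lt_or_one h with h1 | h1
      · exact Or.inr h1
      · left
        have := inv_mem_of_one h1
        rwa [inv_div] at this

lemma mem_of_lt {a : E} (h : V.valuation a < 1) : a ∈ V := (V.valuation_le_one_iff a).1 h.le

/-- The parameters are monomials on the quadratic transform. -/
lemma Nx.step (hN : Nx V P s P') (hP' : ∃ z, Par V P' s z) (h : Par V P x y) :
    ∃ z, Par V P' s z ∧ Mo V P' s z x ∧ Mo V P' s z y := by
  have key : ∀ {x y : E}, Par V P x y → y / x ∈ V →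
      ∃ z, Par V P' s z ∧ Mo V P' s z x ∧ Mo V P' s z y := by
    intro x y h hw
    obtain ⟨e, u, hu, hu1, hs⟩ := hN.eq h hw
    rcases lt_or_one hw with h1 | h1
    · have h2 := h.blow_self hw h1
      rw [← e] at h2
      have h3 := h2.unit_left hu hu1
      rw [← hs] at h3
      have hx : Mo V P' s (y / x) x := by
        refine ⟨u⁻¹, h3.inv u hu hu1, val_inv_one hu1, 1, 0, ?_⟩
        rw [zpow_one, zpow_zero, mul_one, hs, inv_mul_cancel_left₀ (ne_zero_of_one hu1)]
      refine ⟨y / x, h3, hx, ?_⟩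
      have h4 := Mo.mul h3 (Mo.right h3) hx
      rwa [div_mul_cancel₀ _ h.x0] at h4
    · obtain ⟨z, hz⟩ := hP'
      have hx : Mo V P' s z x := by
        refine ⟨u⁻¹, hz.inv u hu hu1, val_inv_one hu1, 1, 0, ?_⟩
        rw [zpow_one, zpow_zero, mul_one, hs, inv_mul_cancel_left₀ (ne_zero_of_one hu1)]
      refine ⟨z, hz, hx, ?_⟩
      have hy : Mo V P' s z (y / x) := by
        refine Mo.unit hz ?_ h1
        rw [e]
        exact le_lo _ _ (self_mem_bl _ _)
      have h4 := Mo.mul hz hy hx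
      rwa [div_mul_cancel₀ _ h.x0] at h4
  rcases div_total (V := V) x y h.x0 with hw | hw
  · exact key h hw
  · obtain ⟨z, h1, h2, h3⟩ := key h.symm (mem_of_lt hw)
    exact ⟨z, h1, h3, h2⟩

end nx

/-- Sequences of quadratic transforms. -/
structure Sq (V : ValuationSubring E) (P : ℕ → Subring E) (s : ℕ → E) : Prop where
  par : ∀ n, ∃ z, Par V (P n) (s n) z
  nx : ∀ n, Nx V (P n) (s (n + 1)) (P (n + 1))

section sq

variable {P : ℕ → Subring E} {s : ℕ → E} (hS : Sq V P s)

include hS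

lemma Sq.mono {n m : ℕ} (h : n ≤ m) : P n ≤ P m := by
  obtain ⟨k, rfl⟩ := Nat.exists_eq_add_of_le h
  induction k with
  | zero => exact le_rfl
  | succ k ih => exact (ih (by omega)).trans (hS.nx (n + k)).le

/-- `f` is a monomial from some point on. -/
def Ev (V : ValuationSubring E) (P : ℕ → Subring E) (s : ℕ → E) (f : E) : Prop :=
  ∃ n z, Par V (P n) (s n) z ∧ Mo V (P n) (s n) z f

omit hS in
lemma Ev.of {n : ℕ} {z f : E} (h : Par V (P n) (s n) z) (hf : Mo V (P n) (s n) z f) :
    Ev V P s f := ⟨n, z, h, hf⟩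

/-- Persistence. -/
lemma Sq.persist {n : ℕ} {z : E} (h : Par V (P n) (s n) z) (k : ℕ) :
    ∃ z', Par V (P (n + k)) (s (n + k)) z' ∧ ∀ f, Mo V (P n) (s n) z f →
      Mo V (P (n + k)) (s (n + k)) z' f := by
  induction k with
  | zero => exact ⟨z, h, fun f hf => hf⟩
  | succ k ih =>
    obtain ⟨z', h', hf'⟩ := ih
    obtain ⟨z'', h1, h2, h3⟩ := (hS.nx (n + k)).step (hS.par (n + k + 1)) h'
    exact ⟨z'', h1, fun f hf => Mo.trans h' h1 (hS.nx (n + k)).le (hf' f hf) h2 h3⟩

/-- Two curves which are transversal to the exceptional curve. -/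
lemma Sq.two_aux (N : ℕ) : ∀ (n : ℕ) (z z' β u : E), Par V (P n) (s n) z → β ∈ P n →
    V.valuation β = 1 → u ∈ P n → V.valuation u = 1 → z' = β * z + u * s n ^ (N + 1) →
    ∃ k z'', Par V (P (n + k)) (s (n + k)) z'' ∧ Mo V (P (n + k)) (s (n + k)) z'' (s n) ∧
      Mo V (P (n + k)) (s (n + k)) z'' z ∧ Mo V (P (n + k)) (s (n + k)) z'' z' := by
  induction N with
  | zero =>
    intro n z z' β u h hβ hβ1 hu hu1 hz'
    refine ⟨1, ?_⟩
    have hN := hS.nx n
    have hle := hN.le
    rw [zero_add, pow_one] at hz'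
    have hz'par : Par V (P n) (s n) z' := by
      have h1 := h.change hu hβ hβ1
      rwa [add_comm, ← hz'] at h1
    rcases div_total (V := V) (s n) z h.x0 with hw | hw
    · -- `z / s ∈ V`
      obtain ⟨e, c, hc, hc1, hs⟩ := hN.eq h hw
      have e1 : z' / s n = β * (z / s n) + u := by
        have := h.x0
        rw [hz']
        field_simp
      rcases lt_or_one hw with h1 | h1
      · have h2 := h.blow_self hw h1
        rw [← e] at h2
        have h3 := h2.unit_left hc hc1
        rw [← hs] at h3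
        have hx : Mo V (P (n + 1)) (s (n + 1)) (z / s n) (s n) := by
          refine ⟨c⁻¹, h3.inv c hc hc1, val_inv_one hc1, 1, 0, ?_⟩
          rw [zpow_one, zpow_zero, mul_one, hs, inv_mul_cancel_left₀ (ne_zero_of_one hc1)]
        refine ⟨z / s n, h3, hx, ?_, ?_⟩
        · have h4 := Mo.mul h3 (Mo.right h3) hx
          rwa [div_mul_cancel₀ _ h.x0] at h4
        · have h5 : V.valuation (z' / s n) = 1 := by
            rw [e1, Valuation.map_add_eq_of_lt_right]
            · exact hu1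
            · rw [hu1]
              exact val_mul_lt_right (h.le β hβ) h1
          have h6 : z' / s n ∈ P (n + 1) := by
            rw [e1]
            exact Subring.add_mem _ (Subring.mul_mem _ (hle hβ) h3.yP) (hle hu)
          have h4 := Mo.mul h3 (Mo.unit h3 h6 h5) hx
          rwa [div_mul_cancel₀ _ h.x0] at h4
      · have hzP : z / s n ∈ P (n + 1) := by
          rw [e]
          exact le_lo _ _ (self_mem_bl _ _)
        have h6 : z' / s n ∈ P (n + 1) := by
          rw [e1]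
          exact Subring.add_mem _ (Subring.mul_mem _ (hle hβ) hzP) (hle hu)
        obtain ⟨z0, hz0⟩ := hS.par (n + 1)
        have hw' : z' / s n ∈ V := hz0.le _ h6
        rcases lt_or_one hw' with h5 | h5
        · have h2 := hz'par.blow_self hw' h5
          rw [← (hN.eq hz'par hw').1] at h2
          have h3 := h2.unit_left hc hc1
          rw [← hs] at h3
          have hx : Mo V (P (n + 1)) (s (n + 1)) (z' / s n) (s n) := by
            refine ⟨c⁻¹, h3.inv c hc hc1, val_inv_one hc1, 1, 0, ?_⟩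
            rw [zpow_one, zpow_zero, mul_one, hs, inv_mul_cancel_left₀ (ne_zero_of_one hc1)]
          refine ⟨z' / s n, h3, hx, ?_, ?_⟩
          · have h4 := Mo.mul h3 (Mo.unit h3 hzP h1) hx
            rwa [div_mul_cancel₀ _ h.x0] at h4
          · have h4 := Mo.mul h3 (Mo.right h3) hx
            rwa [div_mul_cancel₀ _ h.x0] at h4
        · have hx : Mo V (P (n + 1)) (s (n + 1)) z0 (s n) := by
            refine ⟨c⁻¹, hz0.inv c hc hc1, val_inv_one hc1, 1, 0, ?_⟩
            rw [zpow_one, zpow_zero, mul_one, hs, inv_mul_cancel_left₀ (ne_zero_of_one hc1)]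
          refine ⟨z0, hz0, hx, ?_, ?_⟩
          · have h4 := Mo.mul hz0 (Mo.unit hz0 hzP h1) hx
            rwa [div_mul_cancel₀ _ h.x0] at h4
          · have h4 := Mo.mul hz0 (Mo.unit hz0 h6 h5) hx
            rwa [div_mul_cancel₀ _ h.x0] at h4
    · -- `s / z` is a nonunit
      have hw1 := mem_of_lt hw
      obtain ⟨e, c, hc, hc1, hs⟩ := hN.eq h.symm hw1
      have h2 := h.symm.blow_self hw1 hw
      rw [← e] at h2
      have h3 := h2.unit_left hc hc1
      rw [← hs] at h3
      have hz : Mo V (P (n + 1)) (s (n + 1)) (s n / z) z := by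
        refine ⟨c⁻¹, h3.inv c hc hc1, val_inv_one hc1, 1, 0, ?_⟩
        rw [zpow_one, zpow_zero, mul_one, hs, inv_mul_cancel_left₀ (ne_zero_of_one hc1)]
      refine ⟨s n / z, h3, ?_, hz, ?_⟩
      · have h4 := Mo.mul h3 (Mo.right h3) hz
        rwa [div_mul_cancel₀ _ h.y0] at h4
      · have e1 : z' / z = β + u * (s n / z) := by
          have := h.y0
          rw [hz']
          field_simp
        have h5 : V.valuation (z' / z) = 1 := by
          rw [e1, Valuation.map_add_eq_of_lt_left]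
          · exact hβ1
          · rw [hβ1]
            exact val_mul_lt_right (h.le u hu) hw
        have h6 : z' / z ∈ P (n + 1) := by
          rw [e1]
          exact Subring.add_mem _ (hle hβ) (Subring.mul_mem _ (hle hu) h3.yP)
        have h4 := Mo.mul h3 (Mo.unit h3 h6 h5) hz
        rwa [div_mul_cancel₀ _ h.y0] at h4
  | succ N ih =>
    intro n z z' β u h hβ hβ1 hu hu1 hz'
    have hN := hS.nx n
    have hle := hN.le
    rcases div_total (V := V) (s n) z h.x0 with hw | hw
    · obtain ⟨e, c, hc, hc1, hs⟩ := hN.eq h hw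
      have e1 : z' / s n = β * (z / s n) + u * s n ^ (N + 1) := by
        have := h.x0
        rw [hz']
        field_simp
        ring
      have hzP : z / s n ∈ P (n + 1) := by
        rw [e]
        exact le_lo _ _ (self_mem_bl _ _)
      have h6 : z' / s n ∈ P (n + 1) := by
        rw [e1]
        exact Subring.add_mem _ (Subring.mul_mem _ (hle hβ) hzP) (hle ((P n).mul_mem hu
          ((P n).pow_mem h.xP _)))
      rcases lt_or_one hw with h1 | h1
      · have h2 := h.blow_self hw h1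
        rw [← e] at h2
        have h3 := h2.unit_left hc hc1
        rw [← hs] at h3
        have hci := h3.inv c hc hc1
        have hsc : s n = c⁻¹ * s (n + 1) := by
          rw [hs, inv_mul_cancel_left₀ (ne_zero_of_one hc1)]
        obtain ⟨k, z'', g1, g2, g3, g4⟩ := ih (n + 1) (z / s n) (z' / s n) β
          (u * c⁻¹ ^ (N + 1)) h3 (hle hβ) hβ1
          (Subring.mul_mem _ (hle hu) (Subring.pow_mem _ hci _)) (by
            rw [map_mul, map_pow, hu1, val_inv_one hc1, one_pow, one_mul]) (by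
            rw [e1, hsc]
            ring)
        have ek : n + 1 + k = n + (k + 1) := by omega
        rw [ek] at g1 g2 g3 g4
        have hle2 : P (n + 1) ≤ P (n + (k + 1)) := hS.mono (by omega)
        have hsn : Mo V (P (n + (k + 1))) (s (n + (k + 1))) z'' (s n) := by
          rw [hsc]
          exact Mo.mul g1 (Mo.unit g1 (hle2 hci) (val_inv_one hc1)) g2
        refine ⟨k + 1, z'', g1, hsn, ?_, ?_⟩
        · have h4 := Mo.mul g1 g3 hsn
          rwa [div_mul_cancel₀ _ h.x0] at h4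
        · have h4 := Mo.mul g1 g4 hsn
          rwa [div_mul_cancel₀ _ h.x0] at h4
      · obtain ⟨z0, hz0⟩ := hS.par (n + 1)
        have hx : Mo V (P (n + 1)) (s (n + 1)) z0 (s n) := by
          refine ⟨c⁻¹, hz0.inv c hc hc1, val_inv_one hc1, 1, 0, ?_⟩
          rw [zpow_one, zpow_zero, mul_one, hs, inv_mul_cancel_left₀ (ne_zero_of_one hc1)]
        have h5 : V.valuation (z' / s n) = 1 := by
          rw [e1, Valuation.map_add_eq_of_lt_left]
          · rw [map_mul, hβ1, h1, one_mul]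
          · have e9 : V.valuation (β * (z / s n)) = 1 := by rw [map_mul, hβ1, h1, one_mul]
            rw [e9, pow_succ, ← mul_assoc]
            exact val_mul_lt_right (h.le _ ((P n).mul_mem hu ((P n).pow_mem h.xP _))) h.xV
        refine ⟨1, z0, hz0, hx, ?_, ?_⟩
        · have h4 := Mo.mul hz0 (Mo.unit hz0 hzP h1) hx
          rwa [div_mul_cancel₀ _ h.x0] at h4
        · have h4 := Mo.mul hz0 (Mo.unit hz0 h6 h5) hx
          rwa [div_mul_cancel₀ _ h.x0] at h4
    · have hw1 := mem_of_lt hw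
      obtain ⟨e, c, hc, hc1, hs⟩ := hN.eq h.symm hw1
      have h2 := h.symm.blow_self hw1 hw
      rw [← e] at h2
      have h3 := h2.unit_left hc hc1
      rw [← hs] at h3
      have hz : Mo V (P (n + 1)) (s (n + 1)) (s n / z) z := by
        refine ⟨c⁻¹, h3.inv c hc hc1, val_inv_one hc1, 1, 0, ?_⟩
        rw [zpow_one, zpow_zero, mul_one, hs, inv_mul_cancel_left₀ (ne_zero_of_one hc1)]
      refine ⟨1, s n / z, h3, ?_, hz, ?_⟩
      · have h4 := Mo.mul h3 (Mo.right h3) hz
        rwa [div_mul_cancel₀ _ h.y0] at h4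
      · have e1 : z' / z = β + u * s n ^ (N + 1) * (s n / z) := by
          have := h.y0
          rw [hz']
          field_simp
          ring
        have huP : u * s n ^ (N + 1) ∈ P n := (P n).mul_mem hu ((P n).pow_mem h.xP _)
        have h5 : V.valuation (z' / z) = 1 := by
          rw [e1, Valuation.map_add_eq_of_lt_left]
          · exact hβ1
          · rw [hβ1]
            exact val_mul_lt_right (h.le _ huP) hw
        have h6 : z' / z ∈ P (n + 1) := by
          rw [e1]
          exact Subring.add_mem _ (hle hβ) (Subring.mul_mem _ (hle huP) h3.yP)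
        have h4 := Mo.mul h3 (Mo.unit h3 h6 h5) hz
        rwa [div_mul_cancel₀ _ h.y0] at h4

/-- Two curves which are transversal to the exceptional curve. -/
lemma Sq.two {n : ℕ} {z z' : E} (h : Par V (P n) (s n) z) (h' : Par V (P n) (s n) z') :
    ∃ k z'', Par V (P (n + k)) (s (n + k)) z'' ∧ Mo V (P (n + k)) (s (n + k)) z'' (s n) ∧
      Mo V (P (n + k)) (s (n + k)) z'' z ∧ Mo V (P (n + k)) (s (n + k)) z'' z' := by
  obtain ⟨α, hα, β, hβ, e1⟩ := h.gen z' h'.yP h'.yV
  obtain ⟨α', hα', β', hβ', e2⟩ := h'.gen z h.yP h.yV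
  have hβ1 : V.valuation β = 1 := by
    refine (lt_or_one (h.le β hβ)).resolve_left fun hlt => ?_
    have h1 : V.valuation (1 - β * β') = 1 := val_one_sub (val_mul_lt_left hlt (h.le β' hβ'))
    have h2 := h.inv _ ((P n).sub_mem (P n).one_mem ((P n).mul_mem hβ hβ')) h1
    refine h'.not_dvd ((P n).mul_mem h2 ((P n).add_mem hα ((P n).mul_mem hβ hα'))) ?_
    have h3 : (1 - β * β') * z' = (α + β * α') * s n := by
      rw [e2] at e1
      linear_combination e1
    rw [mul_assoc, ← h3, ← mul_assoc, inv_mul_cancel₀ (ne_zero_of_one h1), one_mul]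
  by_cases hαz : ∀ c ∈ P n, α ≠ c * z
  · obtain ⟨k, u, hu, hu1, c, hc, e3⟩ := h.symm.rep hα hαz
    refine hS.two_aux k n z z' (β + c * s n) u h ((P n).add_mem hβ ((P n).mul_mem hc h.xP)) ?_
      hu hu1 ?_
    · rw [Valuation.map_add_eq_of_lt_left]
      · exact hβ1
      · rw [hβ1]
        exact val_mul_lt_right (h.le c hc) h.xV
    · rw [e1, e3]
      ring
  · push Not at hαz
    obtain ⟨c, hc, e3⟩ := hαz
    refine ⟨0, z, h, Mo.left h, Mo.right h, ?_⟩
    refine ⟨β + c * s n, (P n).add_mem hβ ((P n).mul_mem hc h.xP), ?_, 0, 1, ?_⟩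
    · rw [Valuation.map_add_eq_of_lt_left]
      · exact hβ1
      · rw [hβ1]
        exact val_mul_lt_right (h.le c hc) h.xV
    · rw [e1, e3, zpow_zero, zpow_one]
      ring

lemma Ev.mul {f g : E} (hf : Ev V P s f) (hg : Ev V P s g) : Ev V P s (f * g) := by
  obtain ⟨n, z, h, hf⟩ := hf
  obtain ⟨m, z', h', hg⟩ := hg
  obtain ⟨z1, h1, hf1⟩ := hS.persist h m
  obtain ⟨z2, h2, hg2⟩ := hS.persist h' n
  have hf' := hf1 f hf
  have hg' := hg2 g hg
  rw [Nat.add_comm m n] at h2 hg'
  obtain ⟨k, z'', h3, g1, g2, g3⟩ := hS.two h1 h2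
  have hle : P (n + m) ≤ P (n + m + k) := hS.mono (by omega)
  exact ⟨n + m + k, z'', h3, Mo.mul h3 (Mo.trans h1 h3 hle hf' g1 g2)
    (Mo.trans h2 h3 hle hg' g1 g3)⟩

lemma Ev.unit {n : ℕ} {u : E} (hu : u ∈ P n) (hu1 : V.valuation u = 1) : Ev V P s u := by
  obtain ⟨z, hz⟩ := hS.par n
  exact ⟨n, z, hz, Mo.unit hz hu hu1⟩

lemma Ev.exc (n : ℕ) : Ev V P s (s n) := by
  obtain ⟨z, hz⟩ := hS.par n
  exact ⟨n, z, hz, Mo.left hz⟩

lemma Ev.pow {f : E} (hf : Ev V P s f) (k : ℕ) : Ev V P s (f ^ k) := by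
  induction k with
  | zero =>
    rw [pow_zero]
    exact Ev.unit hS (P 0).one_mem (map_one _)
  | succ k ih =>
    rw [pow_succ]
    exact Ev.mul hS ih hf

lemma Ev.param {n : ℕ} {x y : E} (h : Par V (P n) x y) : Ev V P s x ∧ Ev V P s y := by
  obtain ⟨z, h1, h2, h3⟩ := (hS.nx n).step (hS.par (n + 1)) h
  exact ⟨⟨n + 1, z, h1, h2⟩, ⟨n + 1, z, h1, h3⟩⟩

end sq

end Pool.Agent.N98.T2
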